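import Pool.Agent.NCG.YCP
import Pool.Agent.NCG.YEF
import Pool.Agent.NCG.YCQ
import Pool.Agent.NCG.YRF
import Pool.Agent.NCG.YPM

/-!
# Numerical Chow groups of isolated complete intersections of equal characteristic zero

Question Q1 of the problem (Dao and Kurano) for local rings of equal characteristic zero.

The localized Chern character `ch_i(F)` of a bounded complex `F` of free modules with homology of
finite length is expressed by cyclic Adams operations: for a module `M` let `a_q(F, M)` be the
supertrace of the cyclic rotation on the homology of `F^{⊗ q} ⊗ M`.  It is a polynomial in `q` of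
degree at most `dim M`, and `ch_i(F)([A/P])` is its coefficient of `q^i` for `M = A/P`,
`i = dim A/P`.
-/

open scoped BigOperators TensorProduct
open IsLocalRing NCG

namespace Pool.Agent.Results.MP_f44a74_ag.NumChowEqualCharZero

universe u

section defs

variable (A : Type u) [CommRing A] [IsLocalRing A]

/-- `A` is regular at all primes except the maximal ideal -/
def IsolatedSingularity : Prop :=
  ∀ (p : Ideal A) [p.IsPrime], p ≠ maximalIdeal A → IsRegularLocalRing (Localization.AtPrime p)

/-- the completion of `A` is a regular local ring modulo a regular sequence -/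
def CompleteIntersection : Prop :=
  ∃ (S : Type u) (_ : CommRing S) (_ : IsRegularLocalRing S) (c : ℕ) (g : Fin c → S),
    RingTheory.Sequence.IsRegular S (List.ofFn g) ∧
    Nonempty (AdicCompletion (maximalIdeal A) A ≃+* (S ⧸ Ideal.span (Set.range g)))

/-- the fibres of `Spec Â → Spec A` over the punctured spectrum are regular (this holds for all
excellent local rings) -/
def RegularFormalFibres : Prop :=
  ∀ (P : Ideal (AdicCompletion (maximalIdeal A) A)) [P.IsPrime],
    P.comap (algebraMap A (AdicCompletion (maximalIdeal A) A)) ≠ maximalIdeal A →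
    IsRegularLocalRing (Localization.AtPrime P ⧸
      (P.comap (algebraMap A (AdicCompletion (maximalIdeal A) A))).map
        (algebraMap A (Localization.AtPrime P)))

/-- `A` is the localization of `k[x_1, ..., x_n]` at `P` modulo a regular sequence -/
def LocalCI (k : Type u) [Field k] {n : ℕ} (P : Ideal (MvPolynomial (Fin n) k)) [P.IsPrime] :
    Prop :=
  ∃ (c : ℕ) (f : Fin c → Localization.AtPrime P),
    RingTheory.Sequence.IsRegular (Localization.AtPrime P) (List.ofFn f) ∧
    Nonempty ((Localization.AtPrime P ⧸ Ideal.span (Set.range f)) ≃+* A)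

/-- `A` is a localization of a polynomial ring over a field at a prime ideal, modulo a regular
sequence -/
def GeometricCI : Prop :=
  ∃ (k : Type u) (_ : Field k) (n : ℕ) (P : Ideal (MvPolynomial (Fin n) k)) (_ : P.IsPrime),
    LocalCI A k P

end defs

section homology

variable {A : Type u} [CommRing A] {V : Type u} [AddCommGroup V] [Module A V]

/-- the homology `ker δ / im δ` of an endomorphism `δ` (used when `δ ∘ δ = 0`) -/
def Hgy (δ : V →ₗ[A] V) : Type u := Hm δ

noncomputable instance instAddCommGroupHgy (δ : V →ₗ[A] V) : AddCommGroup (Hgy δ) :=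
  Submodule.Quotient.addCommGroup _

noncomputable instance instModuleHgy (δ : V →ₗ[A] V) : Module A (Hgy δ) :=
  Submodule.Quotient.module _

/-- the endomorphism of the homology of `δ` induced by `G` -/
noncomputable def hgy (δ G : V →ₗ[A] V) (h : Pres δ G) : Hgy δ →ₗ[A] Hgy δ := hmap δ G h

end homology

section complexes

variable {A : Type u} [CommRing A]

/-- the homology of the complex `F` has finite length -/
def FinLen (F : Cx A) : Prop := IsFiniteLength A (Hgy (mv A (M := A) F.D))

/-- the tensor power `F^{⊗ (m + 1)} ⊗ M` -/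
def Pow (F : Cx A) (M : Type u) (m : ℕ) : Type u := (Fin (m + 1) → F.ι) → M

noncomputable instance instAddCommGroupPow (F : Cx A) (M : Type u) [AddCommGroup M] (m : ℕ) :
    AddCommGroup (Pow F M m) := Pi.addCommGroup

noncomputable instance instModulePow (F : Cx A) (M : Type u) [AddCommGroup M] [Module A M]
    (m : ℕ) : Module A (Pow F M m) := Pi.Function.module _ _ _

/-- the differential of `F^{⊗ (m + 1)} ⊗ M` -/
def dif (F : Cx A) (M : Type u) [AddCommGroup M] [Module A M] (m : ℕ) :
    Pow F M m →ₗ[A] Pow F M m := mv A (M := M) (F.del (m + 1))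

/-- the cyclic rotation of `F^{⊗ (m + 1)} ⊗ M` (with Koszul signs) times the parity operator -/
def rho (F : Cx A) (M : Type u) [AddCommGroup M] [Module A M] (m : ℕ) :
    Pow F M m →ₗ[A] Pow F M m := mv A (M := M) (gam F.deg A (m + 1) * cyc F.deg A m)

end complexes

section trace

variable {A : Type u} [CommRing A] [IsLocalRing A]

/-- the trace of `σ` on the vector space `K ⊗ N = N / 𝔪 N` over the residue field `K` -/
noncomputable def tr0 {N : Type u} [AddCommGroup N] [Module A N] (σ : N →ₗ[A] N) :
    ResidueField A :=
  LinearMap.trace (ResidueField A) (ResidueField A ⊗[A] N) (σ.baseChange (ResidueField A))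

/-- the trace of an endomorphism `σ` of a module `H` of finite length: the sum of the traces of `σ`
on the `K`-vector spaces `𝔪^j H / 𝔪^(j+1) H` -/
noncomputable def tr {H : Type u} [AddCommGroup H] [Module A H] (σ : H →ₗ[A] H) : ResidueField A :=
  ∑ᶠ j : ℕ, tr0 (rstr A σ j)

open Classical in
/-- the supertrace of the cyclic rotation on the homology of `F^{⊗ (m + 1)} ⊗ M` (the condition
`Pres` always holds) -/
noncomputable def supertr (F : Cx A) (M : Type u) [AddCommGroup M] [Module A M] (m : ℕ) :
    ResidueField A :=
  if h : Pres (dif F M m) (rho F M m) then tr (hgy _ _ h) else 0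

theorem supertr_eq (F : Cx A) (M : Type u) [AddCommGroup M] [Module A M] (m : ℕ) :
    supertr F M m = al (ResidueField A) F M m := by
  unfold supertr al
  rfl

/-- the number `a_q(F, M)`: the supertrace of the cyclic rotation on the homology of
`F^{⊗ q} ⊗ M`, `q ≥ 1` (and `0` for `q = 0`) -/
noncomputable def adams (F : Cx A) (M : Type u) [AddCommGroup M] [Module A M] :
    ℕ → ResidueField A
  | 0 => 0
  | m + 1 => supertr F M m

open Classical in
/-- the degree `i` component `ch_i(F)` of the localized Chern character, evaluated on the class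
of `M` (for `dim M ≤ i`): the coefficient of `q^i` in the polynomial `a_q(F, M)` -/
noncomputable def chern (i : ℕ) (F : Cx A) (M : Type u) [AddCommGroup M] [Module A M] :
    ResidueField A :=
  if h : ∃ p : Polynomial (ResidueField A), ∀ q : ℕ, 1 ≤ q → adams F M q = p.eval (q : ResidueField A)
    then h.choose.coeff i else 0

end trace

section cycles

variable (A : Type u) [CommRing A] [IsLocalRing A]

/-- cycles of dimension `i` with rational coefficients -/
abbrev Cycles (i : ℕ) : Type u :=
  {p : PrimeSpectrum A // ringKrullDim (A ⧸ p.asIdeal) = i} →₀ ℚ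

/-- the cycle `α` is numerically equivalent to zero: `ch_i(F)(α) = 0` for all `F` with homology of
finite length -/
def NumZero [CharZero (ResidueField A)] (i : ℕ) (α : Cycles A i) : Prop :=
  ∀ F : Cx A, FinLen F → α.sum (fun p c => (c : ResidueField A) * chern i F (A ⧸ p.1.asIdeal)) = 0

end cycles

/-- the punctured spectrum of the completion is regular -/
theorem iso_completion (A : Type u) [CommRing A] [IsLocalRing A] [IsNoetherianRing A]
    [IsNoetherianRing (AdicCompletion (maximalIdeal A) A)] (hiso : IsolatedSingularity A)
    (hfib : RegularFormalFibres A) (P : Ideal (AdicCompletion (maximalIdeal A) A)) [P.IsPrime]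
    (hne : P ≠ maximalIdeal (AdicCompletion (maximalIdeal A) A)) :
    IsRegularLocalRing (Localization.AtPrime P) := by
  have h1 : P.comap (algebraMap A (AdicCompletion (maximalIdeal A) A)) ≠ maximalIdeal A := by
    intro h
    apply hne
    have h2 : (maximalIdeal A).map (algebraMap A (AdicCompletion (maximalIdeal A) A)) ≤ P :=
      Ideal.map_le_iff_le_comap.2 h.ge
    rw [← AdicCompletion.maximalIdeal_eq_map] at h2
    exact ((maximalIdeal.isMaximal _).eq_of_le (Ideal.IsPrime.ne_top inferInstance) h2).symm
  have h3 : (P.comap (algebraMap A (AdicCompletion (maximalIdeal A) A))).IsPrime :=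
    Ideal.IsPrime.comap _
  exact YRF P _ rfl (hiso _ h1) (hfib P h1)

theorem main (A : Type u) [CommRing A] [IsLocalRing A] [IsNoetherianRing A]
    [CharZero (ResidueField A)] (hiso : IsolatedSingularity A)
    (hA : (CompleteIntersection A ∧ RegularFormalFibres A) ∨ GeometricCI A) (d : ℕ)
    (hd : ringKrullDim A = d) (i : ℕ) (hi : i ≤ d) (F : Cx A) (hF : F.FinLen) (M : Type u)
    [AddCommGroup M] [Module A M] [Module.Finite A M] (hM : Module.supportDim A M ≤ i) :
    PPa (ResidueField A) F M i (i < d ∧ 2 * i ≠ d ∧ 2 * i ≠ d + 1) := by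
  rcases hA with ⟨⟨S, _, _, c, g, hg, ⟨e⟩⟩, hfib⟩ | ⟨k, _, n, P, _, c, f, hf, ⟨e⟩⟩
  · obtain ⟨n, f, hf, ⟨e'⟩⟩ := YCQ g hg e
    have : IsNoetherianRing (AdicCompletion (maximalIdeal A) A) :=
      isNoetherianRing_of_ringEquiv _ e'.symm
    exact YCP f hf e' (fun P _ hne => iso_completion A hiso hfib P hne) d hd F hF i hi M hM
  · obtain ⟨k', _, _, m, P', _, ⟨ε⟩⟩ := YPM P
    have hk : CharZero k' := by
      let φ : k' →+* ResidueField A := (residue A).comp (e.toRingHom.comp
        ((Ideal.Quotient.mk (Ideal.span (Set.range f))).comp (ε.symm.toRingHom.comp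
          ((algebraMap (MvPolynomial (Fin m) k') (Localization.AtPrime P')).comp
            MvPolynomial.C))))
      exact φ.charZero
    let f' : Fin c → Localization.AtPrime P' := fun l => ε (f l)
    have hf' : RingTheory.Sequence.IsRegular (Localization.AtPrime P') (List.ofFn f') := by
      refine (ε.toAddEquiv.isRegular_congr (as := List.ofFn f) (bs := List.ofFn f') ?_).1 hf
      have : List.ofFn f' = (List.ofFn f).map ε := by
        rw [List.map_ofFn]
        rfl
      rw [this, List.forall₂_map_right_iff, List.forall₂_same]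
      intro r _ x
      exact map_mul ε r x
    have he : Ideal.span (Set.range f') = (Ideal.span (Set.range f)).map ε.toRingHom := by
      rw [Ideal.map_span, ← Set.range_comp]
      rfl
    let e₁ : (Localization.AtPrime P ⧸ Ideal.span (Set.range f)) ≃+*
        (Localization.AtPrime P' ⧸ Ideal.span (Set.range f')) :=
      Ideal.quotientEquiv _ _ ε he
    exact YEF P' (Localization.AtPrime P') f' hf' (e₁.symm.trans e) hiso d hd F hF i hi M hM

/-- a polynomial is determined by its values at the positive integers -/
theorem poly_unique {K : Type u} [Field K] [CharZero K] (p p' : Polynomial K)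
    (h : ∀ q : ℕ, 1 ≤ q → p.eval (q : K) = p'.eval (q : K)) : p = p' := by
  refine Polynomial.eq_of_infinite_eval_eq p p' ?_
  refine Set.Infinite.mono (s := Set.range fun m : ℕ => ((m + 1 : ℕ) : K)) ?_ ?_
  · rintro _ ⟨m, rfl⟩
    exact h (m + 1) (by omega)
  · refine Set.infinite_range_of_injective ?_
    intro a b hab
    have : (a + 1 : ℕ) = b + 1 := Nat.cast_injective hab
    omega

theorem chern_eq {A : Type u} [CommRing A] [IsLocalRing A] [CharZero (ResidueField A)] (i : ℕ)
    (F : Cx A) (M : Type u) [AddCommGroup M] [Module A M] (p : Polynomial (ResidueField A))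
    (hp : ∀ q : ℕ, 1 ≤ q → adams F M q = p.eval (q : ResidueField A)) :
    chern i F M = p.coeff i := by
  have h : ∃ p : Polynomial (ResidueField A),
      ∀ q : ℕ, 1 ≤ q → adams F M q = p.eval (q : ResidueField A) := ⟨p, hp⟩
  rw [chern, dif_pos h]
  rw [poly_unique h.choose p fun q hq => (h.choose_spec q hq).symm.trans (hp q hq)]

/-- **Theorem.** Let `A` be a complete intersection of equal characteristic zero with an isolated
singularity, of dimension `d`, and `i < d`, `i ≠ d/2`, `i ≠ (d+1)/2`.  For all `F` with homology of
finite length and all modules `M` of dimension at most `i` the number `a_q(F, M)` is a polynomial in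
`q` of degree less than `i`; so `ch_i(F)` vanishes on all cycles of dimension `i`: the Chow group of
`A` modulo numerical equivalence vanishes in degree `i`. -/
theorem result (A : Type u) [CommRing A] [IsLocalRing A] [IsNoetherianRing A]
    [CharZero (ResidueField A)] (hiso : IsolatedSingularity A)
    (hA : (CompleteIntersection A ∧ RegularFormalFibres A) ∨ GeometricCI A) (d : ℕ)
    (hd : ringKrullDim A = d) (i : ℕ) (hi : i < d) (h1 : 2 * i ≠ d) (h2 : 2 * i ≠ d + 1) :
    (∀ F : Cx A, FinLen F → ∀ (M : Type u) [AddCommGroup M] [Module A M] [Module.Finite A M],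
      Module.supportDim A M ≤ i → ∃ p : Polynomial (ResidueField A), p.degree < i ∧
        ∀ q : ℕ, 1 ≤ q → adams F M q = p.eval (q : ResidueField A)) ∧
    ∀ α : Cycles A i, NumZero A i α := by
  have key : ∀ F : Cx A, FinLen F → ∀ (M : Type u) [AddCommGroup M] [Module A M]
      [Module.Finite A M], Module.supportDim A M ≤ i → ∃ p : Polynomial (ResidueField A),
        p.degree < i ∧ ∀ q : ℕ, 1 ≤ q → adams F M q = p.eval (q : ResidueField A) := by
    intro F hF M _ _ _ hM
    obtain ⟨p, hp1, hp2, hp3⟩ := main A hiso hA d hd i hi.le F hF M hM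
    refine ⟨p, ?_, ?_⟩
    · rw [Polynomial.degree_lt_iff_coeff_zero]
      intro m hm
      rcases Nat.eq_or_lt_of_le hm with rfl | hlt
      · exact hp3 ⟨hi, h1, h2⟩
      · exact Polynomial.coeff_eq_zero_of_natDegree_lt (lt_of_le_of_lt hp1 hlt)
    · intro q hq
      obtain ⟨m, rfl⟩ : ∃ m, q = m + 1 := ⟨q - 1, by omega⟩
      have := hp2 m
      rw [adams, supertr_eq, this]
      push_cast
      rfl
  refine ⟨key, ?_⟩
  intro α F hF
  refine Finset.sum_eq_zero fun P _ => ?_
  have hdim : Module.supportDim A (A ⧸ P.1.asIdeal) ≤ i := by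
    rw [Module.supportDim_quotient_eq_ringKrullDim]
    exact P.2.le
  obtain ⟨p, hp1, hp2⟩ := key F hF (A ⧸ P.1.asIdeal) hdim
  show _ * chern i F (A ⧸ P.1.asIdeal) = 0
  rw [chern_eq i F _ p hp2, Polynomial.coeff_eq_zero_of_degree_lt hp1, mul_zero]

end Pool.Agent.Results.MP_f44a74_ag.NumChowEqualCharZero
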